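import Pool.Agent.Helper1.IM.St2

/-!
# Project IM: tools for type M (suffix T36)
-/

set_option autoImplicit false

namespace Helper1.IM

/-- a substitution given by its first values -/
def sbL_T36 (l : List Wd) : ℕ → Wd := fun i => l.getD i [X i]

theorem sbL_ne_T36 (l : List Wd) (h : ∀ w ∈ l, w ≠ []) (i : ℕ) : sbL_T36 l i ≠ [] := by
  unfold sbL_T36
  rw [List.getD_eq_getElem?_getD]
  by_cases hi : i < l.length
  · rw [List.getElem?_eq_getElem hi]
    exact h _ (List.getElem_mem hi)
  · rw [List.getElem?_eq_none (not_lt.1 hi)]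
    simp

/-- the relation of type M for words with the same multiplicities in the middle -/
theorem m3_T36 {θ : FIC} (h : M3 θ) (a b : Lt) (m m' : Wd) (hm : m ≠ []) (hp : ∀ i, oc i m = oc i m') :
    θ.r (a :: m ++ [b]) (a :: m' ++ [b]) := h a b m m' hm (perm_iff_oc.2 hp)

/-- a letter occurring twice can be put in front -/
theorem pull2_T36 {i : ℕ} {m : Wd} (h : 2 ≤ oc i m) :
    ∃ r : Wd, (m.map Prod.fst).Perm (([X i, X i] ++ r).map Prod.fst) ∧ r.length + 2 = m.length := by
  unfold oc at h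
  have h1 : i ∈ m.map Prod.fst := List.count_pos_iff.1 (by omega)
  have h2 : i ∈ (m.map Prod.fst).erase i := by
    rw [← List.count_pos_iff, List.count_erase_self]
    omega
  have p1 := List.perm_cons_erase h1
  have p2 := List.perm_cons_erase h2
  refine ⟨(((m.map Prod.fst).erase i).erase i).map X, ?_, ?_⟩
  · refine p1.trans ((p2.cons i).trans ?_)
    simp [Function.comp_def]
  · have e1 := p1.length_eq
    have e2 := p2.length_eq
    simp only [List.length_cons, List.length_map] at e1 e2 ⊢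
    omega

theorem pull1_T36 {i : ℕ} {m : Wd} (h : 1 ≤ oc i m) :
    ∃ r : Wd, (m.map Prod.fst).Perm (([X i] ++ r).map Prod.fst) ∧ r.length + 1 = m.length := by
  unfold oc at h
  have h1 : i ∈ m.map Prod.fst := List.count_pos_iff.1 (by omega)
  have p1 := List.perm_cons_erase h1
  refine ⟨((m.map Prod.fst).erase i).map X, ?_, ?_⟩
  · refine p1.trans ?_
    simp [Function.comp_def]
  · have e1 := p1.length_eq
    simp only [List.length_cons, List.length_map] at e1 ⊢
    omega

/-- a word of length at least two has a first and a last letter -/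
theorem ends_T36 {u : Wd} (h : 2 ≤ u.length) : ∃ (a b : Lt) (m : Wd), u = a :: m ++ [b] ∧ m.length + 2 = u.length := by
  cases u with
  | nil => simp at h
  | cons a u =>
    have hu : u ≠ [] := by
      intro hc
      subst hc
      simp at h
    refine ⟨a, u.getLast hu, u.dropLast, ?_, ?_⟩
    · rw [List.cons_append, List.dropLast_append_getLast hu]
    · rw [List.length_dropLast, List.length_cons]
      have := List.length_pos_iff.2 hu
      omega

/-- the letters of a word of length `≥ k` -/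
theorem cut1_T36 {u : Wd} (h : 1 ≤ u.length) : ∃ (a : Lt) (r : Wd), u = a :: r ∧ r.length + 1 = u.length := by
  cases u with
  | nil => simp at h
  | cons a u => exact ⟨a, u, rfl, rfl⟩

/-- a word with a repeated letter in the middle, of length at least seven, is zero if B6 is zero -/
theorem mid_T36 {θ : FIC} (h : M3 θ) (hB : Zero θ B6) {a b : Lt} {m : Wd} (hm : 5 ≤ m.length) (hl : ¬ Lin m) :
    Zero θ (a :: m ++ [b]) := by
  rw [lin_iff] at hl
  push Not at hl
  obtain ⟨i, hi⟩ := hl
  obtain ⟨r, hr, hrl⟩ := pull2_T36 (show 2 ≤ oc i m by omega)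
  obtain ⟨d, r1, rfl, h1⟩ := cut1_T36 (u := r) (by omega)
  obtain ⟨e, r2, rfl, h2⟩ := cut1_T36 (u := r1) (by omega)
  obtain ⟨f, r3, rfl, h3⟩ := cut1_T36 (u := r2) (by omega)
  have hz := hB.sb (sbL_T36 [[X i], [d], [e], [f], r3 ++ [b], [a]]) (sbL_ne_T36 _ (by simp))
  have he : sb (sbL_T36 [[X i], [d], [e], [f], r3 ++ [b], [a]]) B6 = a :: ([X i, X i] ++ (d :: e :: f :: r3)) ++ [b] := by
    unfold B6
    simp [sbL_T36]
  rw [he] at hz
  exact hz.of_r (θ.symm' (h a b _ _ (by intro hc; rw [hc] at hm; simp at hm) hr))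

/-- a word whose first letter also occurs in the middle, of length at least seven, is zero if A6 is zero -/
theorem fst_T36 {θ : FIC} (h : M3 θ) (hA : Zero θ A6) {a b : Lt} {m : Wd} (hm : 5 ≤ m.length) (hl : a.1 ∈ ct m) :
    Zero θ (a :: m ++ [b]) := by
  obtain ⟨r, hr, hrl⟩ := pull1_T36 (show 1 ≤ oc a.1 m from oc_pos.2 hl)
  obtain ⟨d, r1, rfl, h1⟩ := cut1_T36 (u := r) (by omega)
  obtain ⟨e, r2, rfl, h2⟩ := cut1_T36 (u := r1) (by omega)
  obtain ⟨f, r3, rfl, h3⟩ := cut1_T36 (u := r2) (by omega)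
  obtain ⟨g, r4, rfl, h4⟩ := cut1_T36 (u := r3) (by omega)
  have hz := hA.sb (sbL_T36 [[a], [d], [e], [f], [g], r4 ++ [b]]) (sbL_ne_T36 _ (by simp))
  have he : sb (sbL_T36 [[a], [d], [e], [f], [g], r4 ++ [b]]) A6 = a :: (a :: d :: e :: f :: g :: r4) ++ [b] := by
    unfold A6
    simp [sbL_T36]
  rw [he] at hz
  refine hz.of_r (θ.symm' (h a b _ _ (by intro hc; rw [hc] at hm; simp at hm) (hr.trans ?_)))
  simp

/-- d1 of type D from MG -/
theorem d1_T36 {θ : FIC} (h : MG θ) (u : Wd) (h7 : 7 ≤ u.length) (hl : ¬ Lin u) (hz : ¬ Zero θ u) :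
    ∃ i, oc i u = 2 ∧ ∀ j, j ≠ i → oc j u ≤ 1 := by
  obtain ⟨i, b, c, m, rfl, hm, hi⟩ := h u h7 hl hz
  have h0 : oc i m = 0 := oc_eq_zero.2 hi
  refine ⟨i, ?_, ?_⟩
  · rw [oc_append, oc_cons, oc_cons, h0]
    simp
  · intro j hj
    rw [oc_append, oc_cons, oc_cons]
    have := lin_iff.1 hm j
    have h1 : ¬ (i = j) := fun h => hj h.symm
    simp only [h1, if_false, oc_nil]
    omega

/-- type D from MG and a property of the words `i m i` -/
theorem td_T36 {θ : FIC} (hM : M3 θ) (h : MG θ)
    (hk : ∀ (i : ℕ) (b c c' : Bool) (m : Wd), 5 ≤ m.length → ¬ Zero θ ((i, b) :: m ++ [(i, c)]) →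
      ¬ Zero θ ((i, b) :: m ++ [(i, c')]) → θ.r ((i, b) :: m ++ [(i, c)]) ((i, b) :: m ++ [(i, c')])) : TD θ := by
  refine ⟨d1_T36 h, ?_⟩
  intro u v hu hl hzu hzv hp hfs
  have hv : 7 ≤ v.length := by
    have := hp.length_eq
    simp only [List.length_map] at this
    omega
  have hlv : ¬ Lin v := fun hc => hl ((lin_perm hp).2 hc)
  obtain ⟨i, b, c, m, rfl, hm, hi⟩ := h u hu hl hzu
  obtain ⟨i', b', c', m', rfl, hm', hi'⟩ := h v hv hlv hzv
  have h0 : oc i m = 0 := oc_eq_zero.2 hi
  have h0' : oc i' m' = 0 := oc_eq_zero.2 hi'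
  have ho := perm_iff_oc.1 hp
  have hii : i = i' := by
    by_contra hne
    have := ho i
    rw [oc_append, oc_cons, oc_cons, oc_append, oc_cons, oc_cons, h0] at this
    have h1 : ¬ (i' = i) := fun h => hne h.symm
    have h2 := lin_iff.1 hm' i
    simp only [h1, if_true, if_false, oc_nil] at this
    omega
  subst hii
  have hoc : oc i ((i, b) :: m ++ [(i, c)]) = 2 := by
    rw [oc_append, oc_cons, oc_cons, h0]
    simp
  have hbb := hfs i hoc
  have hb1 : fs i ((i, b) :: m ++ [(i, c)]) = b := by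
    simp [fs]
  have hb2 : fs i ((i, b') :: m' ++ [(i, c')]) = b' := by
    simp [fs]
  rw [hb1, hb2] at hbb
  subst hbb
  have hpm : ∀ j, oc j m = oc j m' := by
    intro j
    have := ho j
    rw [oc_append, oc_cons, oc_cons, oc_append, oc_cons, oc_cons] at this
    dsimp only at this
    omega
  have hm5 : 5 ≤ m.length := by
    simp only [List.length_append, List.length_cons, List.length_nil] at hu
    omega
  have hmn : m ≠ [] := by
    intro hc
    rw [hc] at hm5
    simp at hm5
  have hm5' : 5 ≤ m'.length := by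
    simp only [List.length_append, List.length_cons, List.length_nil] at hv
    omega
  have hr1 := m3_T36 hM (i, b) (i, c) m m' hmn hpm
  exact θ.trans' hr1 (hk i b c c' m' hm5' (fun hz => hzu (hz.of_r (θ.symm' hr1))) hzv)

/-- multiset difference -/
theorem sub_T36 {v w : Wd} (h : ∀ i, oc i v ≤ oc i w) :
    ∃ r : Wd, (w.map Prod.fst).Perm ((v ++ r).map Prod.fst) ∧ v.length + r.length = w.length ∧
      (∀ i, oc i r = oc i w - oc i v) := by
  have hr : ∀ i, oc i (((w.map Prod.fst).diff (v.map Prod.fst)).map X) = oc i w - oc i v := by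
    intro i
    unfold oc
    rw [List.map_map]
    have : (Prod.fst ∘ X) = id := rfl
    rw [this, List.map_id, List.count_diff]
  have hp : (w.map Prod.fst).Perm ((v ++ ((w.map Prod.fst).diff (v.map Prod.fst)).map X).map Prod.fst) := by
    rw [perm_iff_oc]
    intro i
    rw [oc_append, hr]
    have := h i
    omega
  refine ⟨((w.map Prod.fst).diff (v.map Prod.fst)).map X, hp, ?_, hr⟩
  have := hp.length_eq
  simp only [List.length_map, List.length_append] at this ⊢
  omega

/-- substitution of one letter -/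
def up_T36 (t : ℕ) (w : Wd) : ℕ → Wd := fun i => if i = t then w else [X i]

theorem up_ne_T36 (t : ℕ) (w : Wd) (hw : w ≠ []) (i : ℕ) : up_T36 t w i ≠ [] := by
  unfold up_T36
  split_ifs
  · exact hw
  · simp

theorem sb_up_T36 {t : ℕ} {w u : Wd} (h : t ∉ ct u) : sb (up_T36 t w) u = u := by
  rw [sb_congr (up_T36 t w) (fun j => [(j, false)]) u (fun j hj => ?_), sb_id]
  have : j ≠ t := fun h' => h (h' ▸ hj)
  simp [up_T36, this, X]

theorem sb_upt_T36 (t : ℕ) (w : Wd) : sb (up_T36 t w) [X t] = w := by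
  rw [sb_X]
  simp [up_T36]

/-- a relation `P b = P r b` implies that `P b` is zero -/
theorem ins_T36 {θ : FIC} (hn : NilF θ) (P r : Wd) (t : ℕ) (hP : t ∉ ct P) (hr : t ∉ ct r) (hr0 : r ≠ [])
    (h : θ.r (P ++ [X t]) (P ++ r ++ [X t])) : Zero θ (P ++ [X t]) := by
  obtain ⟨k, hk0, hk⟩ := hn.pow
  have key : ∀ m, θ.r (P ++ [X t]) (P ++ (List.replicate m r).flatten ++ [X t]) := by
    intro m
    induction m with
    | zero => simpa using θ.refl' _
    | succ m ih =>
      refine θ.trans' ih ?_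
      have h1 := θ.sub' (up_T36 t ((List.replicate m r).flatten ++ [X t])) (up_ne_T36 _ _ (by simp)) h
      rw [sb_append, sb_append, sb_append, sb_up_T36 hP, sb_up_T36 hr, sb_upt_T36] at h1
      rw [List.replicate_succ, List.flatten_cons]
      simpa [List.append_assoc] using h1
  have h2 : Zero θ (P ++ (List.replicate k r).flatten ++ [X t]) := (hk r hr0 k le_rfl).mul P [X t]
  exact h2.of_r (θ.symm' (key k))

theorem ocX_T36 (i j : ℕ) (u : Wd) : oc i (X j :: u) = (if j = i then 1 else 0) + oc i u := oc_cons i (X j) u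

theorem ocY_T36 (i j : ℕ) (u : Wd) : oc i (Y j :: u) = (if j = i then 1 else 0) + oc i u := oc_cons i (Y j) u

theorem ocp_T36 (i j : ℕ) (b : Bool) (u : Wd) : oc i ((j, b) :: u) = (if j = i then 1 else 0) + oc i u :=
  oc_cons i (j, b) u

end Helper1.IM
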