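import Pool.Agent.Helper36.IM.Tl

/-!
# Project IM: links from modularity (suffix T36)
-/

set_option autoImplicit false

namespace Helper1.IM

theorem ai_T36 (p : Equiv.Perm ℕ) (j : ℕ) : p (p⁻¹ j) = j := p.apply_symm_apply j

theorem ia_T36 (p : Equiv.Perm ℕ) (j : ℕ) : p⁻¹ (p j) = j := p.symm_apply_apply j

/-- a word with a repeated letter 0 all of whose related words have 0 as repeated letter -/
structure Gd_T36 (θ : FIC) (n : ℕ) (g : Wd) : Prop where
  len : g.length = n + 1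
  card : (ct g).card = n
  nk : ¬ Kl θ n (n + 1) g
  oc0 : ∀ v, θ.r g v → oc 0 v = 2

theorem one_T36 {v : Wd} {i : ℕ} (hl : v.length = (ct v).card + 1) (hi : oc i v = 2) (j : ℕ) (hj : j ≠ i) :
    oc j v ≤ 1 := by
  by_contra hc
  have h1 : ∑ k ∈ ct v, (1 + ((if k = i then 1 else 0) + (if k = j then 1 else 0))) ≤ ∑ k ∈ ct v, oc k v := by
    refine Finset.sum_le_sum fun k hk => ?_
    have := oc_pos.2 hk
    split_ifs with e1 e2 e3
    · subst e1
      exact absurd e2.symm hj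
    · subst e1
      omega
    · subst e3
      omega
    · omega
  have hi' : i ∈ ct v := oc_pos.1 (by omega)
  have hj' : j ∈ ct v := oc_pos.1 (by omega)
  rw [Finset.sum_add_distrib, Finset.sum_add_distrib, Finset.sum_ite_eq' , Finset.sum_ite_eq', if_pos hi', if_pos hj',
    ← length_eq_sum, Finset.sum_const, smul_eq_mul, mul_one] at h1
  omega

theorem two_T36 {v : Wd} (hl : v.length = (ct v).card + 1) : ∃ j, oc j v = 2 ∧ ∀ k, k ≠ j → oc k v ≤ 1 := by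
  have hnl : ¬ Lin v := not_lin_of_card (by omega)
  rw [lin_iff] at hnl
  push Not at hnl
  obtain ⟨j, hj⟩ := hnl
  have h1 : ∑ k ∈ ct v, (1 + (if k = j then (oc j v - 1) else 0)) ≤ ∑ k ∈ ct v, oc k v := by
    refine Finset.sum_le_sum fun k hk => ?_
    have := oc_pos.2 hk
    split_ifs with e1
    · subst e1
      omega
    · omega
  have hj' : j ∈ ct v := oc_pos.1 (by omega)
  rw [Finset.sum_add_distrib, Finset.sum_ite_eq', if_pos hj', ← length_eq_sum, Finset.sum_const, smul_eq_mul,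
    mul_one] at h1
  have h2 : oc j v = 2 := by omega
  exact ⟨j, h2, fun k hk => one_T36 hl h2 k hk⟩

theorem len_T36 {θ : FIC} (hn : NilF θ) (hL : StLin) {n : ℕ} {g v : Wd} (hlen : g.length = n + 1)
    (hcard : (ct g).card = n) (hk : ¬ Kl θ n (n + 1) g) (hr : θ.r g v) : v.length = n + 1 ∧ ct v = ct g := by
  have hz : ¬ Zero θ g := fun hz => hk (Kl.of_zero hz _ _)
  have hc := ct_eq_of hn hr hz
  have hle := le_of_not_kl hk hr
  have hge : n ≤ v.length := by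
    have := card_ct_le v
    rw [← hc, hcard] at this
    exact this
  refine ⟨?_, hc.symm⟩
  by_contra hne
  have hvn : v.length = n := by omega
  have hlin : Lin v := by
    by_contra hnl
    rw [lin_iff] at hnl
    push Not at hnl
    obtain ⟨i, hi⟩ := hnl
    have h1 : ∑ k ∈ ct v, (1 + (if k = i then 1 else 0)) ≤ ∑ k ∈ ct v, oc k v := by
      refine Finset.sum_le_sum fun k hk => ?_
      have := oc_pos.2 hk
      split_ifs with e1
      · subst e1
        omega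
      · omega
    have hi' : i ∈ ct v := oc_pos.1 (by omega)
    rw [Finset.sum_add_distrib, Finset.sum_ite_eq', if_pos hi', ← length_eq_sum, Finset.sum_const, smul_eq_mul,
      mul_one, ← hc, hcard] at h1
    omega
  have hzv := hL θ hn v g hlin (θ.symm' hr) (fun h => by
    have := h.2
    rw [hlen] at this
    omega)
  exact hz (hzv.of_r (θ.symm' hr))

theorem Gd_T36.cl {θ : FIC} (hn : NilF θ) (hL : StLin) {n : ℕ} {g v : Wd} (hg : Gd_T36 θ n g) (hr : θ.r g v) :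
    v.length = n + 1 ∧ ct v = ct g ∧ ¬ Kl θ n (n + 1) v ∧ oc 0 v = 2 ∧ ∀ j, j ≠ 0 → oc j v ≤ 1 := by
  obtain ⟨hlen, hc⟩ := len_T36 hn hL hg.len hg.card hg.nk hr
  have h0 := hg.oc0 v hr
  refine ⟨hlen, hc, fun hk => hg.nk (hk.of_r (θ.symm' hr)), h0, fun j hj => one_T36 ?_ h0 j hj⟩
  rw [hlen, hc, hg.card]

/-- the orbit of g -/
def Cl_T36 (θ : FIC) (g u : Wd) : Prop :=
  ∃ (p : Equiv.Perm ℕ) (e : ℕ → Bool), θ.r (rw' p e g) u ∨ θ.r (rw' p e g) (st u)

theorem Cl_T36.prop0 {θ : FIC} (hn : NilF θ) (hL : StLin) {n : ℕ} {g u : Wd} (hg : Gd_T36 θ n g)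
    (p : Equiv.Perm ℕ) (e : ℕ → Bool) (hr : θ.r (rw' p e g) u) :
    u.length = n + 1 ∧ (ct u).card = n ∧ ¬ Kl θ n (n + 1) u ∧ oc (p 0) u = 2 ∧ (∀ j, j ≠ p 0 → oc j u ≤ 1) ∧
      ct u = (ct g).image p := by
  have h1 := θ.rn p⁻¹ (fun i => e (p⁻¹ i)) hr
  rw [rw'_inv] at h1
  obtain ⟨h2, h3, h4, h5, h6⟩ := hg.cl hn hL h1
  have hoc : ∀ j, oc j (rw' p⁻¹ (fun i => e (p⁻¹ i)) u) = oc (p j) u := by
    intro j
    have := oc_rw' p⁻¹ (fun i => e (p⁻¹ i)) (p j) u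
    rw [ia_T36] at this
    exact this
  have h6' : ∀ j, j ≠ p 0 → oc j u ≤ 1 := by
    intro j hj
    have := h6 (p⁻¹ j) (fun h => hj (by rw [← h, ai_T36]))
    rw [hoc, ai_T36] at this
    exact this
  have hct : ct u = (ct g).image p := by
    rw [← h3, ct_rw', Finset.image_image]
    have : ((p : ℕ → ℕ) ∘ (p⁻¹ : Equiv.Perm ℕ)) = id := by
      funext j
      exact ai_T36 p j
    rw [this, Finset.image_id]
  refine ⟨by rw [rw'_length] at h2; exact h2, ?_, fun hk => h4 ((Kl.rw'_iff _ _).2 hk), by rw [← hoc]; exact h5, h6', hct⟩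
  rw [hct, Finset.card_image_of_injective _ p.injective, hg.card]

theorem Cl_T36.prop {θ : FIC} (hn : NilF θ) (hL : StLin) {n : ℕ} {g u : Wd} (hg : Gd_T36 θ n g)
    (h : Cl_T36 θ g u) : u.length = n + 1 ∧ (ct u).card = n ∧ ¬ Kl θ n (n + 1) u ∧
      ∃ i, oc i u = 2 ∧ (∀ j, j ≠ i → oc j u ≤ 1) ∧
        ∀ v, θ.r u v → oc i v = 2 ∧ (∀ j, j ≠ i → oc j v ≤ 1) ∧ ct u = ct v := by
  obtain ⟨p, e, hr | hr⟩ := h
  · obtain ⟨h1, h2, h3, h4, h5, h6⟩ := Cl_T36.prop0 hn hL hg p e hr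
    refine ⟨h1, h2, h3, p 0, h4, h5, ?_⟩
    intro v hv
    obtain ⟨h1', h2', h3', h4', h5', h6'⟩ := Cl_T36.prop0 hn hL hg p e (θ.trans' hr hv)
    exact ⟨h4', h5', by rw [h6, h6']⟩
  · obtain ⟨h1, h2, h3, h4, h5, h6⟩ := Cl_T36.prop0 hn hL hg p e hr
    refine ⟨by rw [st_length] at h1; exact h1, by rw [ct_st] at h2; exact h2, fun hk => h3 hk.st, p 0,
      by rw [oc_st] at h4; exact h4, fun j hj => by have := h5 j hj; rw [oc_st] at this; exact this, ?_⟩
    intro v hv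
    obtain ⟨h1', h2', h3', h4', h5', h6'⟩ := Cl_T36.prop0 hn hL hg p e (θ.trans' hr (θ.star' hv))
    refine ⟨by rw [oc_st] at h4'; exact h4', fun j hj => by have := h5' j hj; rw [oc_st] at this; exact this, ?_⟩
    rw [ct_st] at h6 h6'
    rw [h6, h6']

/-- the repeated letter -/
noncomputable def col_T36 (u : Wd) : ℕ := sInf {i | oc i u = 2}

theorem col_eq_T36 {u : Wd} {i : ℕ} (h : oc i u = 2) (h1 : ∀ j, j ≠ i → oc j u ≤ 1) : col_T36 u = i := by
  have : {j | oc j u = 2} = {i} := by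
    ext j
    simp only [Set.mem_ofPred_eq, Set.mem_singleton_iff]
    constructor
    · intro hj
      by_contra hne
      have := h1 j hne
      omega
    · rintro rfl
      exact h
  unfold col_T36
  rw [this, csInf_singleton]

theorem link_T36 (hL : StLin) (hT : StTwo) {θ : FIC} (hn : NilF θ) (hM : Mod7 θ) {n : ℕ} (hn2 : 2 ≤ n) (hn5 : n ≤ 5)
    {g h : Wd} (hg : Gd_T36 θ n g) (hh : Gd_T36 θ n h)
    (hst : ∃ (q : Equiv.Perm ℕ) (f : ℕ → Bool), θ.r (st h) (rw' q f h)) :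
    ∃ (p : Equiv.Perm ℕ) (e : ℕ → Bool), p 0 = 0 ∧ ct (rw' p e h) = ct g ∧ θ.r g (rw' p e h) := by
  by_contra hcon
  -- no renaming of h is related to a renaming of g
  have hno : ∀ (p q : Equiv.Perm ℕ) (e f : ℕ → Bool), ¬ θ.r (rw' p e g) (rw' q f h) := by
    intro p q e f hr
    apply hcon
    have h1 := θ.rn p⁻¹ (fun i => e (p⁻¹ i)) hr
    rw [rw'_inv, rw'_rw'] at h1
    refine ⟨_, _, ?_, ?_, h1⟩
    · have h2 := hg.oc0 _ h1
      obtain ⟨_, _, _, h3, h4⟩ := hh.cl hn hL (θ.refl' h)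
      by_contra hne
      set s := p⁻¹ * q with hs
      have h5 := h4 (s⁻¹ 0) (fun h => hne (by have := ai_T36 s 0; rw [h] at this; exact this))
      have h6 := oc_rw' s (fun i => xor (f i) (e (p⁻¹ (q i)))) (s⁻¹ 0) h
      rw [ai_T36] at h6
      rw [h6] at h2
      omega
    · exact (hg.cl hn hL h1).2.1
  obtain ⟨q0, f0, hst⟩ := hst
  have hno2 : ∀ (p q : Equiv.Perm ℕ) (e f : ℕ → Bool), ¬ θ.r (rw' p e g) (st (rw' q f h)) := by
    intro p q e f hr
    rw [st_rw'] at hr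
    have h1 := θ.rn q f hst
    rw [rw'_rw'] at h1
    exact hno _ _ _ _ (θ.trans' hr h1)
  refine hT θ n (n + 1) hM hn2 (by omega) (by omega) (Cl_T36 θ g) (Cl_T36 θ h) col_T36 ?_ ?_ ?_ ?_ ?_ ?_ ?_ ?_ ?_ ?_ ?_ ?_ ?_
  · intro u hu
    have key : ∀ k : Wd, Gd_T36 θ n k → Cl_T36 θ k u → u.length = n + 1 ∧ (ct u).card = n ∧ ¬ Kl θ n (n + 1) u ∧
        col_T36 u ∈ ct u := by
      intro k hk hu
      obtain ⟨h1, h2, h3, i, h4, h5, -⟩ := Cl_T36.prop hn hL hk hu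
      refine ⟨h1, h2, h3, ?_⟩
      rw [col_eq_T36 h4 h5, ← oc_pos, h4]
      omega
    rcases hu with hu | hu
    · exact key g hg hu
    · exact key h hh hu
  · rintro u ⟨p, e, h1 | h1⟩ ⟨q, f, h2 | h2⟩
    · exact hno p q e f (θ.trans' h1 (θ.symm' h2))
    · have h3 := θ.star' (θ.symm' h2)
      rw [st_st] at h3
      exact hno2 p q e f (θ.trans' h1 h3)
    · exact hno2 p q e f (θ.trans' h1 (θ.star' (θ.symm' h2)))
    · exact hno p q e f (θ.trans' h1 (θ.symm' h2))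
  · rintro u v ⟨p, e, h1 | h1⟩ hr
    · exact ⟨p, e, Or.inl (θ.trans' h1 hr)⟩
    · exact ⟨p, e, Or.inr (θ.trans' h1 (θ.star' hr))⟩
  · rintro u v ⟨p, e, h1 | h1⟩ hr
    · exact ⟨p, e, Or.inl (θ.trans' h1 hr)⟩
    · exact ⟨p, e, Or.inr (θ.trans' h1 (θ.star' hr))⟩
  · intro u v hu hr
    have key : ∀ k : Wd, Gd_T36 θ n k → Cl_T36 θ k u → col_T36 u = col_T36 v ∧ ct u = ct v := by
      intro k hk hu
      obtain ⟨h1, h2, h3, i, h4, h5, h6⟩ := Cl_T36.prop hn hL hk hu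
      obtain ⟨h7, h8, h9⟩ := h6 v hr
      exact ⟨by rw [col_eq_T36 h4 h5, col_eq_T36 h7 h8], h9⟩
    rcases hu with hu | hu
    · exact key g hg hu
    · exact key h hh hu
  · rintro u ⟨p, e, h1 | h1⟩
    · exact ⟨p, e, Or.inr (by rw [st_st]; exact h1)⟩
    · exact ⟨p, e, Or.inl h1⟩
  · rintro u ⟨p, e, h1 | h1⟩
    · exact ⟨p, e, Or.inr (by rw [st_st]; exact h1)⟩
    · exact ⟨p, e, Or.inl h1⟩
  · rintro u q f ⟨p, e, h1 | h1⟩
    · have h2 := θ.rn q f h1
      rw [rw'_rw'] at h2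
      exact ⟨_, _, Or.inl h2⟩
    · have h2 := θ.rn q f h1
      rw [rw'_rw', ← st_rw'] at h2
      exact ⟨_, _, Or.inr h2⟩
  · rintro u q f ⟨p, e, h1 | h1⟩
    · have h2 := θ.rn q f h1
      rw [rw'_rw'] at h2
      exact ⟨_, _, Or.inl h2⟩
    · have h2 := θ.rn q f h1
      rw [rw'_rw', ← st_rw'] at h2
      exact ⟨_, _, Or.inr h2⟩
  · intro u _
    unfold col_T36
    simp only [oc_st]
  · intro u q f hu
    have key : ∀ k : Wd, Gd_T36 θ n k → Cl_T36 θ k u → col_T36 (rw' q f u) = q (col_T36 u) := by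
      intro k hk hu
      obtain ⟨h1, h2, h3, i, h4, h5, -⟩ := Cl_T36.prop hn hL hk hu
      rw [col_eq_T36 h4 h5]
      refine col_eq_T36 (by rw [oc_rw']; exact h4) ?_
      intro j hj
      have h6 := oc_rw' q f (q⁻¹ j) u
      rw [ai_T36] at h6
      rw [h6]
      exact h5 _ (fun h => hj (by rw [← h, ai_T36]))
    rcases hu with hu | hu
    · exact key g hg hu
    · exact key h hh hu
  · exact ⟨g, 1, fun _ => false, Or.inl (by rw [rw'_id]; exact θ.refl' g)⟩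
  · exact ⟨h, 1, fun _ => false, Or.inl (by rw [rw'_id]; exact θ.refl' h)⟩

end Helper1.IM
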